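import Pool.Agent.RB.M_Prune

/-!
MP_c6e2b4_co: an abstract calculus of axis-aligned cuts, and its transfer to binary space partitions.
-/

set_option autoImplicit false

namespace Pool.Agent.Helper57.BSP

open Pool.Agent.Helper30.BSP (Rect Tree IsBSP size)

/-- `CutN A k`: the rectangles of `A` can be separated with at most `k` fragments. -/
inductive CutN : Finset Rect → ℕ → Prop
  | leaf (A : Finset Rect) (h : A.card ≤ 1) : CutN A A.card
  | vert (A : Finset Rect) (c : ℝ) (k l : ℕ) (h1 : CutN (A.filter (fun R => R.a1 < c)) k)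
      (h2 : CutN (A.filter (fun R => c < R.b1)) l) : CutN A (k + l)
  | horiz (A : Finset Rect) (c : ℝ) (k l : ℕ) (h1 : CutN (A.filter (fun R => R.a2 < c)) k)
      (h2 : CutN (A.filter (fun R => c < R.b2)) l) : CutN A (k + l)
  | weak (A : Finset Rect) (k l : ℕ) (h : CutN A k) (hkl : k ≤ l) : CutN A l

private theorem mem_int (R : Rect) (p : ℝ × ℝ) (hp : p ∈ interior R.toSet) :
    R.a1 < p.1 ∧ p.1 < R.b1 ∧ R.a2 < p.2 ∧ p.2 < R.b2 := by
  rw [Rect.toSet, interior_prod_eq, interior_Icc, interior_Icc] at hp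
  exact ⟨hp.1.1, hp.1.2, hp.2.1, hp.2.2⟩

private theorem side (f : ℝ × ℝ → ℝ) (hf : Continuous f) (C : Set (ℝ × ℝ)) (hC : Convex ℝ C)
    (c : ℝ) (h : ¬ ∃ p ∈ interior C, f p = c) :
    (∀ p ∈ interior C, f p < c) ∨ (∀ p ∈ interior C, c < f p) := by
  by_contra hcon
  push Not at hcon
  obtain ⟨⟨p, hp, hpc⟩, ⟨q, hq, hqc⟩⟩ := hcon
  have hpre : IsPreconnected (f '' interior C) :=
    hC.interior.isPreconnected.image f hf.continuousOn
  have h1 : c ∈ f '' interior C :=
    hpre.Icc_subset (Set.mem_image_of_mem f hq) (Set.mem_image_of_mem f hp) ⟨hqc, hpc⟩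
  obtain ⟨r, hr, hrc⟩ := h1
  exact h ⟨r, hr, hrc⟩

private theorem convLe1 (c : ℝ) : Convex ℝ {p : ℝ × ℝ | p.1 ≤ c} :=
  convex_halfSpace_le (IsLinearMap.mk (fun _ _ => rfl) (fun _ _ => rfl)) c

private theorem convGe1 (c : ℝ) : Convex ℝ {p : ℝ × ℝ | c ≤ p.1} :=
  convex_halfSpace_ge (IsLinearMap.mk (fun _ _ => rfl) (fun _ _ => rfl)) c

private theorem convLe2 (c : ℝ) : Convex ℝ {p : ℝ × ℝ | p.2 ≤ c} :=
  convex_halfSpace_le (IsLinearMap.mk (fun _ _ => rfl) (fun _ _ => rfl)) c

private theorem convGe2 (c : ℝ) : Convex ℝ {p : ℝ × ℝ | c ≤ p.2} :=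
  convex_halfSpace_ge (IsLinearMap.mk (fun _ _ => rfl) (fun _ _ => rfl)) c

theorem transfer (S : Finset Rect) {A : Finset Rect} {k : ℕ} (h : CutN A k) :
    ∀ C : Set (ℝ × ℝ), Convex ℝ C →
      (∀ R ∈ S, Pool.Agent.Helper30.BSP.Meets R C → R ∈ A) →
      ∃ T : Tree, IsBSP S T C ∧ size S T C ≤ k := by
  induction h with
  | leaf A hA =>
    intro C _ hC
    refine ⟨.leaf, ?_, ?_⟩
    · intro R hR R' hR' h1 h2
      exact Finset.card_le_one.1 hA _ (hC R hR h1) _ (hC R' hR' h2)
    · classical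
      refine Finset.card_le_card fun R hR => ?_
      have h1 := Finset.mem_filter.1 hR
      exact hC R h1.1 h1.2
  | vert A c k l h1 h2 ih1 ih2 =>
    intro C hconv hC
    by_cases hp : ∃ p ∈ interior C, p.1 = c
    · obtain ⟨T1, hT1, hs1⟩ := ih1 (C ∩ {p | p.1 ≤ c}) (hconv.inter (convLe1 c)) (by
        rintro R hR ⟨p, hp1, hp2⟩
        have hpC : p ∈ interior C := interior_mono Set.inter_subset_left hp2
        exact Finset.mem_filter.2 ⟨hC R hR ⟨p, hp1, hpC⟩,
          (mem_int R p hp1).1.trans_le (interior_subset hp2).2⟩)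
      obtain ⟨T2, hT2, hs2⟩ := ih2 (C ∩ {p | c ≤ p.1}) (hconv.inter (convGe1 c)) (by
        rintro R hR ⟨p, hp1, hp2⟩
        have hpC : p ∈ interior C := interior_mono Set.inter_subset_left hp2
        exact Finset.mem_filter.2 ⟨hC R hR ⟨p, hp1, hpC⟩,
          lt_of_le_of_lt (interior_subset hp2).2 (mem_int R p hp1).2.1⟩)
      exact ⟨.vert c T1 T2, ⟨hp, hT1, hT2⟩, Nat.add_le_add hs1 hs2⟩
    · rcases side Prod.fst continuous_fst C hconv c hp with h3 | h3
      · obtain ⟨T1, hT1, hs1⟩ := ih1 C hconv (by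
          rintro R hR ⟨p, hp1, hp2⟩
          exact Finset.mem_filter.2 ⟨hC R hR ⟨p, hp1, hp2⟩,
            (mem_int R p hp1).1.trans (h3 p hp2)⟩)
        exact ⟨T1, hT1, hs1.trans (Nat.le_add_right _ _)⟩
      · obtain ⟨T2, hT2, hs2⟩ := ih2 C hconv (by
          rintro R hR ⟨p, hp1, hp2⟩
          exact Finset.mem_filter.2 ⟨hC R hR ⟨p, hp1, hp2⟩,
            (h3 p hp2).trans (mem_int R p hp1).2.1⟩)
        exact ⟨T2, hT2, hs2.trans (Nat.le_add_left _ _)⟩
  | horiz A c k l h1 h2 ih1 ih2 =>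
    intro C hconv hC
    by_cases hp : ∃ p ∈ interior C, p.2 = c
    · obtain ⟨T1, hT1, hs1⟩ := ih1 (C ∩ {p | p.2 ≤ c}) (hconv.inter (convLe2 c)) (by
        rintro R hR ⟨p, hp1, hp2⟩
        have hpC : p ∈ interior C := interior_mono Set.inter_subset_left hp2
        exact Finset.mem_filter.2 ⟨hC R hR ⟨p, hp1, hpC⟩,
          (mem_int R p hp1).2.2.1.trans_le (interior_subset hp2).2⟩)
      obtain ⟨T2, hT2, hs2⟩ := ih2 (C ∩ {p | c ≤ p.2}) (hconv.inter (convGe2 c)) (by
        rintro R hR ⟨p, hp1, hp2⟩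
        have hpC : p ∈ interior C := interior_mono Set.inter_subset_left hp2
        exact Finset.mem_filter.2 ⟨hC R hR ⟨p, hp1, hpC⟩,
          lt_of_le_of_lt (interior_subset hp2).2 (mem_int R p hp1).2.2.2⟩)
      exact ⟨.horiz c T1 T2, ⟨hp, hT1, hT2⟩, Nat.add_le_add hs1 hs2⟩
    · rcases side Prod.snd continuous_snd C hconv c hp with h3 | h3
      · obtain ⟨T1, hT1, hs1⟩ := ih1 C hconv (by
          rintro R hR ⟨p, hp1, hp2⟩
          exact Finset.mem_filter.2 ⟨hC R hR ⟨p, hp1, hp2⟩,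
            (mem_int R p hp1).2.2.1.trans (h3 p hp2)⟩)
        exact ⟨T1, hT1, hs1.trans (Nat.le_add_right _ _)⟩
      · obtain ⟨T2, hT2, hs2⟩ := ih2 C hconv (by
          rintro R hR ⟨p, hp1, hp2⟩
          exact Finset.mem_filter.2 ⟨hC R hR ⟨p, hp1, hp2⟩,
            (h3 p hp2).trans (mem_int R p hp1).2.2.2⟩)
        exact ⟨T2, hT2, hs2.trans (Nat.le_add_left _ _)⟩
  | weak A k l h hkl ih =>
    intro C hconv hC
    obtain ⟨T, hT, hs⟩ := ih C hconv hC
    exact ⟨T, hT, hs.trans hkl⟩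

/-- the number of fragments after a vertical cut -/
theorem card_vert (A : Finset Rect) (c : ℝ) :
    (A.filter (fun R => R.a1 < c)).card + (A.filter (fun R => c < R.b1)).card =
      A.card + (A.filter (fun R => R.a1 < c ∧ c < R.b1)).card := by
  rw [Finset.card_filter, Finset.card_filter, Finset.card_filter, Finset.card_eq_sum_ones,
    ← Finset.sum_add_distrib, ← Finset.sum_add_distrib]
  refine Finset.sum_congr rfl fun R _ => ?_
  have h := R.lt1
  by_cases h1 : R.a1 < c <;> by_cases h2 : c < R.b1 <;> simp [h1, h2]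
  linarith

/-- the number of fragments after a horizontal cut -/
theorem card_horiz (A : Finset Rect) (c : ℝ) :
    (A.filter (fun R => R.a2 < c)).card + (A.filter (fun R => c < R.b2)).card =
      A.card + (A.filter (fun R => R.a2 < c ∧ c < R.b2)).card := by
  rw [Finset.card_filter, Finset.card_filter, Finset.card_filter, Finset.card_eq_sum_ones,
    ← Finset.sum_add_distrib, ← Finset.sum_add_distrib]
  refine Finset.sum_congr rfl fun R _ => ?_
  have h := R.lt2
  by_cases h1 : R.a2 < c <;> by_cases h2 : c < R.b2 <;> simp [h1, h2]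
  linarith

/-- the projections to the first axis are disjoint -/
def XD (R R' : Rect) : Prop := R.b1 < R'.a1 ∨ R'.b1 < R.a1

/-- the projections to the second axis are disjoint -/
def YD (R R' : Rect) : Prop := R.b2 < R'.a2 ∨ R'.b2 < R.a2

/-- disjoint rectangles are separated in one of the directions -/
theorem disj (R R' : Rect) (h : Disjoint R.toSet R'.toSet) : XD R R' ∨ YD R R' := by
  by_contra hcon
  simp only [XD, YD, not_or, not_lt] at hcon
  obtain ⟨⟨h1, h2⟩, h3, h4⟩ := hcon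
  have l1 := R.lt1
  have l2 := R.lt2
  have l3 := R'.lt1
  have l4 := R'.lt2
  have h5 : (max R.a1 R'.a1, max R.a2 R'.a2) ∉ R'.toSet := Set.disjoint_left.1 h ?_
  · refine h5 ?_
    exact ⟨⟨le_max_right _ _, max_le h2 l3.le⟩, ⟨le_max_right _ _, max_le h4 l4.le⟩⟩
  · exact ⟨⟨le_max_left _ _, max_le l1.le h1⟩, ⟨le_max_left _ _, max_le l2.le h3⟩⟩

/-- rectangles with disjoint projections are separated without crossings -/
theorem xsep : ∀ (n : ℕ) (A : Finset Rect), A.card ≤ n →
    (∀ R ∈ A, ∀ R' ∈ A, R ≠ R' → XD R R') → CutN A A.card := by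
  intro n
  induction n with
  | zero =>
    intro A hA _
    exact CutN.leaf A (hA.trans (Nat.zero_le 1))
  | succ n ih =>
    intro A hA hX
    by_cases h1 : A.card ≤ 1
    · exact CutN.leaf A h1
    have hne : A.Nonempty := Finset.card_pos.1 (by omega)
    obtain ⟨R, hR, hmin⟩ := Finset.exists_min_image A (fun R => R.b1) hne
    have hleft : ∀ R' ∈ A, R'.a1 < R.b1 → R' = R := by
      intro R' hR' h2
      by_contra hne'
      rcases hX R' hR' R hR hne' with h3 | h3
      · have h4 := hmin R' hR'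
        have h5 := R.lt1
        linarith
      · linarith
    have hr : A.filter (fun R' => R.b1 < R'.b1) ⊂ A := by
      rw [Finset.filter_ssubset]
      exact ⟨R, hR, lt_irrefl _⟩
    have hrc := Finset.card_lt_card hr
    have c1 : CutN (A.filter (fun R' => R'.a1 < R.b1)) (A.filter (fun R' => R'.a1 < R.b1)).card := by
      refine CutN.leaf _ ?_
      rw [Finset.card_le_one]
      intro x hx y hy
      rw [Finset.mem_filter] at hx hy
      rw [hleft x hx.1 hx.2, hleft y hy.1 hy.2]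
    have c2 : CutN (A.filter (fun R' => R.b1 < R'.b1)) (A.filter (fun R' => R.b1 < R'.b1)).card := by
      refine ih _ (by omega) ?_
      intro x hx y hy hxy
      exact hX x (Finset.mem_filter.1 hx).1 y (Finset.mem_filter.1 hy).1 hxy
    have c3 := CutN.vert A R.b1 _ _ c1 c2
    rw [card_vert] at c3
    have h0 : (A.filter (fun R' => R'.a1 < R.b1 ∧ R.b1 < R'.b1)).card = 0 := by
      rw [Finset.card_eq_zero, Finset.filter_eq_empty_iff]
      rintro x hx ⟨h2, h3⟩
      rw [hleft x hx h2] at h3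
      exact lt_irrefl _ h3
    rw [h0] at c3
    exact c3

end Pool.Agent.Helper57.BSP
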