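import Pool.Agent.Helper57.BSP.Stack

/-!
MP_c6e2b4_co: families of rectangles crossed exactly once by a set of horizontal lines.
-/

set_option autoImplicit false

namespace Pool.Agent.Helper57.BSP

open Pool.Agent.Helper30.BSP (Rect Tree IsBSP size)

/-- from a calculus of cuts to partitions -/
theorem finish (S : Finset Rect) (k : ℕ) (h : CutN S k) :
    ∃ T : Tree, IsBSP S T Set.univ ∧ Pool.RB.Strict S T Set.univ ∧ size S T Set.univ ≤ k := by
  obtain ⟨T, hT, hs⟩ := transfer S h Set.univ convex_univ (fun R hR _ => hR)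
  obtain ⟨T', h1, h2, h3⟩ := Pool.RB.pPrune S T Set.univ hT
  exact ⟨T', h1, h2, h3.trans hs⟩

/-- a strictly increasing sequence which contains a given finite set and has the other members
above a given bound -/
theorem seqL (L : Finset ℝ) (B : ℝ) : ∃ y : ℕ → ℝ, StrictMono y ∧ (∀ i, y i ∈ L ∨ B ≤ y i) ∧
    (∀ z ∈ L, ∃ i, i ≤ L.card ∧ y i = z) := by
  obtain ⟨C, hCB, hCL⟩ : ∃ C : ℝ, B ≤ C ∧ ∀ z ∈ L, z < C := by
    by_cases hne : L.Nonempty
    · obtain ⟨P, _, hmax⟩ := Finset.exists_max_image L (fun z => z) hne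
      exact ⟨max B (P + 1), le_max_left _ _, fun z hz =>
        (hmax z hz).trans_lt ((by linarith : P < P + 1).trans_le (le_max_right _ _))⟩
    · exact ⟨B, le_rfl, fun z hz => absurd ⟨z, hz⟩ hne⟩
  refine ⟨fun i => if h : i < L.card then L.orderEmbOfFin rfl ⟨i, h⟩ else C + i, ?_, ?_, ?_⟩
  · intro a b hab
    by_cases hb : b < L.card
    · have ha : a < L.card := hab.trans hb
      simp only [dif_pos ha, dif_pos hb]
      exact (L.orderEmbOfFin rfl).strictMono hab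
    · by_cases ha : a < L.card
      · simp only [dif_pos ha, dif_neg hb]
        have h1 := hCL _ (L.orderEmbOfFin_mem rfl ⟨a, ha⟩)
        have h2 : (0 : ℝ) ≤ b := Nat.cast_nonneg b
        linarith
      · simp only [dif_neg ha, dif_neg hb]
        have h2 : (a : ℝ) < b := by exact_mod_cast hab
        linarith
  · intro i
    by_cases h : i < L.card
    · left
      simp only [dif_pos h]
      exact L.orderEmbOfFin_mem rfl ⟨i, h⟩
    · right
      simp only [dif_neg h]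
      have h2 : (0 : ℝ) ≤ i := Nat.cast_nonneg i
      linarith
  · intro z hz
    have h1 : z ∈ Set.range (L.orderEmbOfFin rfl) := by
      rw [Finset.range_orderEmbOfFin]
      exact hz
    obtain ⟨i, hi⟩ := h1
    refine ⟨i.val, i.isLt.le, ?_⟩
    have h2 : i.val < L.card := i.isLt
    simp only [dif_pos h2]
    exact hi

theorem stabbed (S : Finset Rect) (hS : (S : Set Rect).PairwiseDisjoint Rect.toSet)
    (L : Finset ℝ) (hL : ∀ R ∈ S, ∃! z, z ∈ L ∧ R.a2 < z ∧ z < R.b2) :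
    ∃ T : Tree, IsBSP S T Set.univ ∧ Pool.RB.Strict S T Set.univ ∧
      2 * size S T Set.univ ≤ 5 * S.card := by
  obtain ⟨B, hB⟩ : ∃ B : ℝ, ∀ R ∈ S, R.b2 ≤ B := by
    by_cases hne : S.Nonempty
    · obtain ⟨P, _, hmax⟩ := Finset.exists_max_image S (fun R => R.b2) hne
      exact ⟨P.b2, hmax⟩
    · exact ⟨0, fun R hR => absurd ⟨R, hR⟩ hne⟩
  obtain ⟨y, hy, hyL, hyS⟩ := seqL L B
  have hex : ∀ R ∈ S, ∃ i, i ≤ L.card ∧ R.a2 < y i ∧ y i < R.b2 := by
    intro R hR
    obtain ⟨z, ⟨h1, h2, h3⟩, _⟩ := hL R hR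
    obtain ⟨i, hi, hiz⟩ := hyS z h1
    exact ⟨i, hi, by rw [hiz]; exact h2, by rw [hiz]; exact h3⟩
  classical
  let j : Rect → ℕ := fun R => if h : R ∈ S then (hex R h).choose else 0
  have hj : ∀ R (h : R ∈ S), j R = (hex R h).choose := fun R h => dif_pos h
  have hc : Crs y j S := by
    intro R hR
    have h1 := (hex R hR).choose_spec
    rw [← hj R hR] at h1
    refine ⟨h1.2.1, h1.2.2, ?_⟩
    rintro i hi ⟨h2, h3⟩
    obtain ⟨z, _, huniq⟩ := hL R hR
    have hmem : ∀ l, R.a2 < y l → y l < R.b2 → y l ∈ L := by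
      intro l _ h5
      rcases hyL l with h6 | h6
      · exact h6
      · exact absurd (h5.trans_le (hB R hR)) (not_lt.2 h6)
    have e1 := huniq (y i) ⟨hmem i h2 h3, h2, h3⟩
    have e2 := huniq (y (j R)) ⟨hmem _ h1.2.1 h1.2.2, h1.2.1, h1.2.2⟩
    exact hi (hy.injective (e1.trans e2.symm))
  have hjb : ∀ R ∈ S, j R ≤ 2 * L.card := by
    intro R hR
    have h1 := (hex R hR).choose_spec.1
    rw [← hj R hR] at h1
    omega
  have hd : ∀ R ∈ S, ∀ R' ∈ S, R ≠ R' → XD R R' ∨ YD R R' := by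
    intro R hR R' hR' hne
    exact disj R R' (hS hR hR' hne)
  obtain ⟨k, hk, hk2⟩ := half L.card y j S hy hc hjb hd
  obtain ⟨T, h1, h2, h3⟩ := finish S k hk
  exact ⟨T, h1, h2, by omega⟩

/-- equal heights -/
theorem lines (S : Finset Rect) (h : ℝ) (hh : ∀ R ∈ S, R.b2 - R.a2 = h) :
    ∃ L : Finset ℝ, ∀ R ∈ S, ∃! z, z ∈ L ∧ R.a2 < z ∧ z < R.b2 := by
  by_cases hne : S.Nonempty
  swap
  · exact ⟨∅, fun R hR => absurd ⟨R, hR⟩ hne⟩
  obtain ⟨P, hP, hmin⟩ := Finset.exists_min_image S (fun R => R.a2) hne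
  obtain ⟨Q, hQ, hmax⟩ := Finset.exists_max_image S (fun R => R.b2) hne
  have hpos : 0 < h := by
    have h1 := hh P hP
    have h2 := P.lt2
    linarith
  -- a generic starting line
  have hcount : (⋃ R ∈ S, Set.range (fun i : ℤ => R.a2 - i * h)).Countable :=
    (S.countable_toSet).biUnion fun R _ => Set.countable_range _
  obtain ⟨t, ht, htP⟩ := (hcount.dense_compl ℝ).exists_lt P.a2
  have hgen : ∀ R ∈ S, ∀ i : ℤ, t + i * h ≠ R.a2 := by
    intro R hR i hi
    refine ht (Set.mem_iUnion₂.2 ⟨R, hR, i, ?_⟩)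
    change R.a2 - i * h = t
    linarith
  obtain ⟨N, hN⟩ := exists_nat_gt ((Q.b2 - t) / h)
  rw [div_lt_iff₀ hpos] at hN
  refine ⟨(Finset.range N).image (fun i : ℕ => t + i * h), ?_⟩
  intro R hR
  have hRh := hh R hR
  have hRP := hmin R hR
  have hRQ := hmax R hR
  set f := ⌊(R.a2 - t) / h⌋ with hf
  have f1 : (f : ℝ) ≤ (R.a2 - t) / h := Int.floor_le _
  have f2 : (R.a2 - t) / h < f + 1 := Int.lt_floor_add_one _
  rw [le_div_iff₀ hpos] at f1
  rw [div_lt_iff₀ hpos] at f2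
  have f0 : 0 ≤ f := Int.floor_nonneg.2 (div_nonneg (by linarith) hpos.le)
  have f3 : (f : ℝ) * h ≠ R.a2 - t := fun h1 => hgen R hR f (by linarith)
  have f4 : (f : ℝ) * h < R.a2 - t := lt_of_le_of_ne f1 f3
  obtain ⟨n, hn⟩ := Int.eq_ofNat_of_zero_le f0
  have hnf : (f : ℝ) = (n : ℝ) := by rw [hn]; simp
  rw [hnf] at f2 f4
  refine ⟨t + ((n + 1 : ℕ) : ℝ) * h, ⟨?_, ?_, ?_⟩, ?_⟩
  · refine Finset.mem_image.2 ⟨n + 1, Finset.mem_range.2 ?_, rfl⟩
    have h1 : ((n + 1 : ℕ) : ℝ) * h < N * h := by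
      push_cast
      linarith
    have h2 : ((n + 1 : ℕ) : ℝ) < N := lt_of_mul_lt_mul_right h1 hpos.le
    exact_mod_cast h2
  · push_cast
    linarith
  · push_cast
    linarith
  · rintro z ⟨hz, hz1, hz2⟩
    obtain ⟨i, _, rfl⟩ := Finset.mem_image.1 hz
    have h1 : (n : ℝ) * h < i * h := by linarith
    have h2 : (i : ℝ) * h < (n + 2) * h := by linarith
    have h3 : (n : ℝ) < i := lt_of_mul_lt_mul_right h1 hpos.le
    have h4 : (i : ℝ) < n + 2 := lt_of_mul_lt_mul_right h2 hpos.le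
    have h5 : n < i := by exact_mod_cast h3
    have h6 : i < n + 2 := by exact_mod_cast h4
    have h7 : i = n + 1 := by omega
    rw [h7]

end Pool.Agent.Helper57.BSP
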