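import Pool.Agent.Helper57.BSP.Sweep

/-!
MP_c6e2b4_co: cutting along every second line of a family of horizontal lines.
-/

set_option autoImplicit false

namespace Pool.Agent.Helper57.BSP

open Pool.Agent.Helper30.BSP (Rect Tree IsBSP size)

/-- the line number `j R` is the only line of the family `y` which crosses `R` -/
def Crs (y : ℕ → ℝ) (j : Rect → ℕ) (A : Finset Rect) : Prop :=
  ∀ R ∈ A, R.a2 < y (j R) ∧ y (j R) < R.b2 ∧ ∀ i, i ≠ j R → ¬ (R.a2 < y i ∧ y i < R.b2)

/-- the weight of a rectangle above the line number `0` -/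
def wt (j : ℕ) : ℕ := if j = 0 then 1 else if Even j then 2 else 3

theorem stack : ∀ (M : ℕ) (y : ℕ → ℝ) (j : Rect → ℕ) (A : Finset Rect), StrictMono y →
    Crs y j A → (∀ R ∈ A, j R ≤ 2 * M) →
    (∀ R ∈ A, ∀ R' ∈ A, R ≠ R' → XD R R' ∨ YD R R') →
    CutN A (∑ R ∈ A, wt (j R)) := by
  intro M
  induction M with
  | zero =>
    intro y j A hy hc hj hd
    have hj0 : ∀ R ∈ A, j R = 0 := fun R hR => by
      have := hj R hR
      omega
    have h1 : ∑ R ∈ A, wt (j R) = A.card := by
      rw [Finset.card_eq_sum_ones]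
      refine Finset.sum_congr rfl fun R hR => ?_
      rw [hj0 R hR]
      rfl
    rw [h1]
    refine xsep _ _ le_rfl ?_
    intro R hR R' hR' hne
    rcases hd R hR R' hR' hne with h3 | h3
    · exact h3
    · exfalso
      have h4 := hc R hR
      have h5 := hc R' hR'
      rw [hj0 R hR] at h4
      rw [hj0 R' hR'] at h5
      rcases h3 with h3 | h3
      · linarith [h4.2.1, h5.1]
      · linarith [h5.2.1, h4.1]
  | succ M ih =>
    intro y j A hy hc hj hd
    have y01 : y 0 < y 1 := hy (by norm_num)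
    have y12 : y 1 < y 2 := hy (by norm_num)
    -- position of the rectangles
    have p0 : ∀ R ∈ A, j R = 0 → isB (y 0) (y 1) R := by
      intro R hR h0
      obtain ⟨h1, h2, h3⟩ := hc R hR
      rw [h0] at h1 h2
      refine ⟨h1, h2, not_lt.1 fun h4 => h3 1 (by omega) ⟨h1.trans y01, h4⟩⟩
    have p1 : ∀ R ∈ A, j R = 1 → isU (y 0) (y 1) (y 2) R := by
      intro R hR h0
      obtain ⟨h1, h2, h3⟩ := hc R hR
      rw [h0] at h1 h2
      exact ⟨not_lt.1 fun h4 => h3 0 (by omega) ⟨h4, y01.trans h2⟩, h1, h2,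
        not_lt.1 fun h4 => h3 2 (by omega) ⟨h1.trans y12, h4⟩⟩
    have p2 : ∀ R ∈ A, j R = 2 → isT (y 1) (y 2) R := by
      intro R hR h0
      obtain ⟨h1, h2, h3⟩ := hc R hR
      rw [h0] at h1 h2
      exact ⟨not_lt.1 fun h4 => h3 1 (by omega) ⟨h4, y12.trans h2⟩, h1, h2⟩
    have p3 : ∀ R ∈ A, 3 ≤ j R → y 2 ≤ R.a2 := by
      intro R hR h0
      obtain ⟨h1, h2, h3⟩ := hc R hR
      have h5 : y 2 < y (j R) := hy (by omega)
      exact not_lt.1 fun h4 => h3 2 (by omega) ⟨h4, h5.trans h2⟩
    have hlow : ∀ R ∈ A, (R.a2 < y 2 ↔ j R ≤ 2) := by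
      intro R hR
      constructor
      · intro h1
        by_contra h2
        exact absurd h1 (not_lt.2 (p3 R hR (by omega)))
      · intro h1
        have h2 : j R = 0 ∨ j R = 1 ∨ j R = 2 := by omega
        rcases h2 with h2 | h2 | h2
        · exact (p0 R hR h2).1.trans (y01.trans y12)
        · exact (p1 R hR h2).2.1.trans y12
        · exact (p2 R hR h2).2.1
    have hhigh : ∀ R ∈ A, (y 2 < R.b2 ↔ 2 ≤ j R) := by
      intro R hR
      constructor
      · intro h1
        by_contra h2
        have h3 : j R = 0 ∨ j R = 1 := by omega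
        rcases h3 with h3 | h3
        · linarith [(p0 R hR h3).2.2]
        · linarith [(p1 R hR h3).2.2.2]
      · intro h1
        by_cases h2 : j R = 2
        · exact (p2 R hR h2).2.2
        · exact (p3 R hR (by omega)).trans_lt R.lt2
    -- the strip
    have hstrip : Strip (y 0) (y 1) (y 2) (A.filter (fun R => R.a2 < y 2)) := by
      refine ⟨y01, y12, ?_, ?_⟩
      · intro R hR
        rw [Finset.mem_filter] at hR
        have h1 := (hlow R hR.1).1 hR.2
        have h2 : j R = 0 ∨ j R = 1 ∨ j R = 2 := by omega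
        rcases h2 with h2 | h2 | h2
        · exact Or.inl (p0 R hR.1 h2)
        · exact Or.inr (Or.inl (p1 R hR.1 h2))
        · exact Or.inr (Or.inr (p2 R hR.1 h2))
      · intro R hR R' hR' hne
        exact hd R (Finset.mem_filter.1 hR).1 R' (Finset.mem_filter.1 hR').1 hne
    have c1 := (sweep (y0 := y 0) (y1 := y 1) (y2 := y 2)
      (Us (y 0) (y 1) (y 2) (A.filter (fun R => R.a2 < y 2))).card).1 _ hstrip le_rfl
    -- the upper part
    have c2 := ih (fun i => y (i + 2)) (fun R => j R - 2) (A.filter (fun R => y 2 < R.b2))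
      (fun a b hab => hy (by omega)) (by
        intro R hR
        rw [Finset.mem_filter] at hR
        have h1 := (hhigh R hR.1).1 hR.2
        obtain ⟨h2, h3, h4⟩ := hc R hR.1
        have h5 : j R - 2 + 2 = j R := by omega
        refine ⟨by simpa only [h5] using h2, by simpa only [h5] using h3, ?_⟩
        intro i hi
        have hi' : i ≠ j R - 2 := hi
        exact h4 (i + 2) (by omega)) (by
        intro R hR
        have h1 := hj R (Finset.mem_filter.1 hR).1
        omega) (by
        intro R hR R' hR' hne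
        exact hd R (Finset.mem_filter.1 hR).1 R' (Finset.mem_filter.1 hR').1 hne)
    have c3 := CutN.horiz A (y 2) _ _ c1 c2
    refine CutN.weak _ _ _ c3 (le_of_eq ?_)
    have hUs : (Us (y 0) (y 1) (y 2) (A.filter (fun R => R.a2 < y 2))).card =
        ∑ R ∈ A, (if j R = 1 then 1 else 0) := by
      rw [← Finset.card_filter]
      congr 1
      ext R
      rw [mem_Us, Finset.mem_filter, Finset.mem_filter]
      constructor
      · rintro ⟨⟨h1, h2⟩, h3⟩
        refine ⟨h1, ?_⟩
        have h4 := (hlow R h1).1 h2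
        have h5 : j R = 0 ∨ j R = 1 ∨ j R = 2 := by omega
        rcases h5 with h5 | h5 | h5
        · exfalso
          linarith [(p0 R h1 h5).1, h3.1]
        · exact h5
        · exfalso
          linarith [(p2 R h1 h5).2.2, h3.2.2.2]
      · rintro ⟨h1, h2⟩
        exact ⟨⟨h1, (hlow R h1).2 (by omega)⟩, p1 R h1 h2⟩
    rw [hUs, Finset.card_filter, Finset.sum_filter, Finset.mul_sum, ← Finset.sum_add_distrib,
      ← Finset.sum_add_distrib]
    refine Finset.sum_congr rfl fun R hR => ?_
    have e1 : (if R.a2 < y 2 then 1 else 0) = (if j R ≤ 2 then 1 else 0) := by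
      by_cases h : R.a2 < y 2
      · rw [if_pos h, if_pos ((hlow R hR).1 h)]
      · rw [if_neg h, if_neg (fun h2 => h ((hlow R hR).2 h2))]
    have e2 : (if y 2 < R.b2 then wt (j R - 2) else 0) = (if 2 ≤ j R then wt (j R - 2) else 0) := by
      by_cases h : y 2 < R.b2
      · rw [if_pos h, if_pos ((hhigh R hR).1 h)]
      · rw [if_neg h, if_neg (fun h2 => h ((hhigh R hR).2 h2))]
    rw [e1, e2]
    have h5 : j R = 0 ∨ j R = 1 ∨ j R = 2 ∨ 3 ≤ j R := by omega
    rcases h5 with h5 | h5 | h5 | h5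
    · simp [h5, wt]
    · simp [h5, wt]
    · simp [h5, wt]
    · have h6 : ¬ j R ≤ 2 := by omega
      have h7 : j R ≠ 1 := by omega
      have h8 : 2 ≤ j R := by omega
      have h9 : j R - 2 ≠ 0 := by omega
      have h10 : j R ≠ 0 := by omega
      have h11 : Even (j R - 2) ↔ Even (j R) := by
        rw [Nat.even_sub h8]
        simp
      simp only [if_neg h6, if_neg h7, if_pos h8, wt, if_neg h9, if_neg h10, h11]
      ring

/-- cutting along the lines with even number -/
theorem even_cut (M : ℕ) (y : ℕ → ℝ) (j : Rect → ℕ) (A : Finset Rect) (hy : StrictMono y)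
    (hc : Crs y j A) (hj : ∀ R ∈ A, j R ≤ 2 * M)
    (hd : ∀ R ∈ A, ∀ R' ∈ A, R ≠ R' → XD R R' ∨ YD R R') :
    CutN A (∑ R ∈ A, if Even (j R) then 2 else 3) := by
  have hb : ∀ R ∈ A, y 0 < R.b2 := by
    intro R hR
    exact (hy.monotone (Nat.zero_le (j R))).trans_lt (hc R hR).2.1
  have h0 : ∀ R ∈ A, (R.a2 < y 0 ↔ j R = 0) := by
    intro R hR
    obtain ⟨h1, h2, h3⟩ := hc R hR
    constructor
    · intro h4
      by_contra h5
      exact h3 0 (fun h6 => h5 h6.symm) ⟨h4, hb R hR⟩
    · intro h4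
      rw [h4] at h1
      exact h1
  have c1 : CutN (A.filter (fun R => R.a2 < y 0)) (A.filter (fun R => R.a2 < y 0)).card := by
    refine xsep _ _ le_rfl ?_
    intro R hR R' hR' hne
    rw [Finset.mem_filter] at hR hR'
    rcases hd R hR.1 R' hR'.1 hne with h3 | h3
    · exact h3
    · exfalso
      rcases h3 with h3 | h3
      · linarith [hb R hR.1, hR'.2]
      · linarith [hb R' hR'.1, hR.2]
  have hA : A.filter (fun R => y 0 < R.b2) = A := Finset.filter_true_of_mem hb
  have c2 : CutN (A.filter (fun R => y 0 < R.b2)) (∑ R ∈ A, wt (j R)) := by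
    rw [hA]
    exact stack M y j A hy hc hj hd
  refine CutN.weak _ _ _ (CutN.horiz A (y 0) _ _ c1 c2) (le_of_eq ?_)
  rw [Finset.card_filter, ← Finset.sum_add_distrib]
  refine Finset.sum_congr rfl fun R hR => ?_
  by_cases h1 : j R = 0
  · rw [if_pos ((h0 R hR).2 h1), h1]
    simp [wt]
  · rw [if_neg (fun h2 => h1 ((h0 R hR).1 h2)), wt, if_neg h1, zero_add]

/-- both parities -/
theorem half (M : ℕ) (y : ℕ → ℝ) (j : Rect → ℕ) (A : Finset Rect) (hy : StrictMono y)
    (hc : Crs y j A) (hj : ∀ R ∈ A, j R ≤ 2 * M)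
    (hd : ∀ R ∈ A, ∀ R' ∈ A, R ≠ R' → XD R R' ∨ YD R R') :
    ∃ k, CutN A k ∧ 2 * k ≤ 5 * A.card := by
  have c1 := even_cut M y j A hy hc hj hd
  -- a lower line
  obtain ⟨z, hz⟩ : ∃ z : ℝ, z < y 0 ∧ ∀ R ∈ A, z ≤ R.a2 := by
    by_cases hne : A.Nonempty
    · obtain ⟨P, hP, hmin⟩ := Finset.exists_min_image A (fun R => R.a2) hne
      refine ⟨min P.a2 (y 0 - 1), by linarith [min_le_right P.a2 (y 0 - 1)], ?_⟩
      intro R hR
      exact (min_le_left _ _).trans (hmin R hR)
    · refine ⟨y 0 - 1, by linarith, ?_⟩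
      intro R hR
      exact absurd ⟨R, hR⟩ hne
  have hy' : StrictMono (fun i : ℕ => if i = 0 then z else y (i - 1)) := by
    intro a b hab
    have hb : b ≠ 0 := by omega
    by_cases ha : a = 0
    · simp only [ha, if_true, if_neg hb]
      exact hz.1.trans_le (hy.monotone (Nat.zero_le _))
    · simp only [if_neg ha, if_neg hb]
      exact hy (by omega)
  have c2 := even_cut (M + 1) (fun i : ℕ => if i = 0 then z else y (i - 1)) (fun R => j R + 1) A hy'
    (by
      intro R hR
      obtain ⟨h1, h2, h3⟩ := hc R hR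
      refine ⟨by simpa using h1, by simpa using h2, ?_⟩
      rintro i hi ⟨h4, h5⟩
      have hi' : i ≠ j R + 1 := hi
      by_cases hi0 : i = 0
      · simp only [hi0, if_true] at h4
        exact absurd h4 (not_lt.2 (hz.2 R hR))
      · simp only [if_neg hi0] at h4 h5
        exact h3 (i - 1) (fun h6 => hi' (by omega)) ⟨h4, h5⟩)
    (by
      intro R hR
      have := hj R hR
      omega) hd
  have hsum : (∑ R ∈ A, if Even (j R) then 2 else 3) + (∑ R ∈ A, if Even (j R + 1) then 2 else 3) =
      5 * A.card := by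
    rw [← Finset.sum_add_distrib, Finset.card_eq_sum_ones, Finset.mul_sum]
    refine Finset.sum_congr rfl fun R _ => ?_
    by_cases h1 : Even (j R)
    · have h2 : ¬ Even (j R + 1) := by
        rw [Nat.even_add_one]
        exact fun h3 => h3 h1
      rw [if_pos h1, if_neg h2]
      norm_num
    · have h2 : Even (j R + 1) := by
        rw [Nat.even_add_one]
        exact h1
      rw [if_neg h1, if_pos h2]
      norm_num
  rcases le_total (∑ R ∈ A, if Even (j R) then 2 else 3)
    (∑ R ∈ A, if Even (j R + 1) then 2 else 3) with h | h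
  · exact ⟨_, c1, by omega⟩
  · exact ⟨_, c2, by omega⟩

end Pool.Agent.Helper57.BSP
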