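import Pool.Agent.Helper57.BSP.Cut

/-!
MP_c6e2b4_co: the left to right sweep of a strip between two cutting lines.
-/

set_option autoImplicit false

namespace Pool.Agent.Helper57.BSP

open Pool.Agent.Helper30.BSP (Rect Tree IsBSP size)

/-- crosses the lower line, ends below the middle line -/
def isB (y0 y1 : ℝ) (R : Rect) : Prop := R.a2 < y0 ∧ y0 < R.b2 ∧ R.b2 ≤ y1

/-- crosses the middle line and stays in the strip -/
def isU (y0 y1 y2 : ℝ) (R : Rect) : Prop := y0 ≤ R.a2 ∧ R.a2 < y1 ∧ y1 < R.b2 ∧ R.b2 ≤ y2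

/-- starts above the middle line, crosses the upper line -/
def isT (y1 y2 : ℝ) (R : Rect) : Prop := y1 ≤ R.a2 ∧ R.a2 < y2 ∧ y2 < R.b2

open Classical in
/-- the rectangles of the middle type -/
noncomputable def Us (y0 y1 y2 : ℝ) (A : Finset Rect) : Finset Rect :=
  A.filter (fun R => isU y0 y1 y2 R)

/-- the content of a strip -/
structure Strip (y0 y1 y2 : ℝ) (A : Finset Rect) : Prop where
  lt1 : y0 < y1
  lt2 : y1 < y2
  typ : ∀ R ∈ A, isB y0 y1 R ∨ isU y0 y1 y2 R ∨ isT y1 y2 R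
  dis : ∀ R ∈ A, ∀ R' ∈ A, R ≠ R' → XD R R' ∨ YD R R'

variable {y0 y1 y2 : ℝ}

open Classical in
theorem mem_Us {A : Finset Rect} {R : Rect} : R ∈ Us y0 y1 y2 A ↔ R ∈ A ∧ isU y0 y1 y2 R := by
  unfold Us
  rw [Finset.mem_filter]

theorem Strip.sub {A A' : Finset Rect} (h : Strip y0 y1 y2 A) (hA : A' ⊆ A) :
    Strip y0 y1 y2 A' :=
  ⟨h.lt1, h.lt2, fun R hR => h.typ R (hA hR), fun R hR R' hR' => h.dis R (hA hR) R' (hA hR')⟩

theorem XD_symm {R R' : Rect} (h : XD R R') : XD R' R := Or.symm h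

theorem sameB {A : Finset Rect} (h : Strip y0 y1 y2 A) {R R' : Rect} (hR : R ∈ A) (hR' : R' ∈ A)
    (hne : R ≠ R') (h1 : isB y0 y1 R) (h2 : isB y0 y1 R') : XD R R' := by
  rcases h.dis R hR R' hR' hne with h3 | h3
  · exact h3
  · exfalso
    rcases h3 with h3 | h3
    · linarith [h1.2.1, h2.1]
    · linarith [h2.2.1, h1.1]

theorem sameU {A : Finset Rect} (h : Strip y0 y1 y2 A) {R R' : Rect} (hR : R ∈ A) (hR' : R' ∈ A)
    (hne : R ≠ R') (h1 : isU y0 y1 y2 R) (h2 : isU y0 y1 y2 R') : XD R R' := by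
  rcases h.dis R hR R' hR' hne with h3 | h3
  · exact h3
  · exfalso
    rcases h3 with h3 | h3
    · linarith [h1.2.2.1, h2.2.1]
    · linarith [h2.2.2.1, h1.2.1]

theorem sameT {A : Finset Rect} (h : Strip y0 y1 y2 A) {R R' : Rect} (hR : R ∈ A) (hR' : R' ∈ A)
    (hne : R ≠ R') (h1 : isT y1 y2 R) (h2 : isT y1 y2 R') : XD R R' := by
  rcases h.dis R hR R' hR' hne with h3 | h3
  · exact h3
  · exfalso
    rcases h3 with h3 | h3
    · linarith [h1.2.2, h2.2.1]
    · linarith [h2.2.2, h1.2.1]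

/-- without middle rectangles the middle line separates everything -/
theorem noU {A : Finset Rect} (h : Strip y0 y1 y2 A) (hU : ∀ R ∈ A, ¬ isU y0 y1 y2 R) :
    CutN A A.card := by
  have c1 : CutN (A.filter (fun R => R.a2 < y1)) (A.filter (fun R => R.a2 < y1)).card := by
    refine xsep _ _ le_rfl ?_
    intro R hR R' hR' hne
    rw [Finset.mem_filter] at hR hR'
    refine sameB h hR.1 hR'.1 hne ?_ ?_
    · rcases h.typ R hR.1 with h1 | h1 | h1
      · exact h1
      · exact absurd h1 (hU R hR.1)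
      · exact absurd hR.2 (not_lt.2 h1.1)
    · rcases h.typ R' hR'.1 with h1 | h1 | h1
      · exact h1
      · exact absurd h1 (hU R' hR'.1)
      · exact absurd hR'.2 (not_lt.2 h1.1)
  have c2 : CutN (A.filter (fun R => y1 < R.b2)) (A.filter (fun R => y1 < R.b2)).card := by
    refine xsep _ _ le_rfl ?_
    intro R hR R' hR' hne
    rw [Finset.mem_filter] at hR hR'
    refine sameT h hR.1 hR'.1 hne ?_ ?_
    · rcases h.typ R hR.1 with h1 | h1 | h1
      · exact absurd hR.2 (not_lt.2 h1.2.2)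
      · exact absurd h1 (hU R hR.1)
      · exact h1
    · rcases h.typ R' hR'.1 with h1 | h1 | h1
      · exact absurd hR'.2 (not_lt.2 h1.2.2)
      · exact absurd h1 (hU R' hR'.1)
      · exact h1
  have c3 := CutN.horiz A y1 _ _ c1 c2
  rw [card_horiz] at c3
  have h0 : (A.filter (fun R => R.a2 < y1 ∧ y1 < R.b2)).card = 0 := by
    rw [Finset.card_eq_zero, Finset.filter_eq_empty_iff]
    rintro R hR ⟨h1, h2⟩
    rcases h.typ R hR with h3 | h3 | h3
    · exact absurd h2 (not_lt.2 h3.2.2)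
    · exact hU R hR h3
    · exact absurd h1 (not_lt.2 h3.1)
  rw [h0] at c3
  exact c3

/-- one middle rectangle which meets the column of every other rectangle -/
theorem oneU {A : Finset Rect} (h : Strip y0 y1 y2 A) {U : Rect} (hUA : U ∈ A)
    (hU : isU y0 y1 y2 U) (hov : ∀ R ∈ A, R ≠ U → ¬ XD R U) : CutN A A.card := by
  have hY : ∀ R ∈ A, R ≠ U → (isB y0 y1 R ∧ R.b2 < U.a2) ∨ (isT y1 y2 R ∧ U.b2 < R.a2) := by
    intro R hR hne
    have h1 := h.dis R hR U hUA hne
    have h2 : YD R U := h1.resolve_left (hov R hR hne)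
    rcases h.typ R hR with h3 | h3 | h3
    · left
      refine ⟨h3, ?_⟩
      rcases h2 with h4 | h4
      · exact h4
      · exfalso
        linarith [h3.1, hU.1, U.lt2]
    · exact absurd (sameU h hR hUA hne h3 hU) (hov R hR hne)
    · right
      refine ⟨h3, ?_⟩
      rcases h2 with h4 | h4
      · exfalso
        linarith [h3.2.2, hU.2.2.2, U.lt2]
      · exact h4
  have hUl := U.lt2
  -- the upper part
  have c2 : CutN (A.filter (fun R => U.b2 < R.b2)) (A.filter (fun R => U.b2 < R.b2)).card := by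
    refine xsep _ _ le_rfl ?_
    intro R hR R' hR' hne
    rw [Finset.mem_filter] at hR hR'
    have hR1 : R ≠ U := by
      rintro rfl
      exact lt_irrefl _ hR.2
    have hR2 : R' ≠ U := by
      rintro rfl
      exact lt_irrefl _ hR'.2
    refine sameT h hR.1 hR'.1 hne ?_ ?_
    · rcases hY R hR.1 hR1 with h1 | h1
      · linarith [h1.2, hR.2]
      · exact h1.1
    · rcases hY R' hR'.1 hR2 with h1 | h1
      · linarith [h1.2, hR'.2]
      · exact h1.1
  -- the lower part
  have c1 : CutN (A.filter (fun R => R.a2 < U.b2)) (A.filter (fun R => R.a2 < U.b2)).card := by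
    set A' := A.filter (fun R => R.a2 < U.b2) with hA'
    have hY' : ∀ R ∈ A', R ≠ U → isB y0 y1 R ∧ R.b2 < U.a2 := by
      intro R hR hne
      rw [hA', Finset.mem_filter] at hR
      rcases hY R hR.1 hne with h1 | h1
      · exact h1
      · exfalso
        linarith [h1.2, hR.2]
    have d1 : CutN (A'.filter (fun R => R.a2 < U.a2)) (A'.filter (fun R => R.a2 < U.a2)).card := by
      refine xsep _ _ le_rfl ?_
      intro R hR R' hR' hne
      rw [Finset.mem_filter] at hR hR'
      have hR1 : R ≠ U := by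
        rintro rfl
        exact lt_irrefl _ hR.2
      have hR2 : R' ≠ U := by
        rintro rfl
        exact lt_irrefl _ hR'.2
      have hs : A' ⊆ A := Finset.filter_subset _ _
      exact sameB h (hs hR.1) (hs hR'.1) hne (hY' R hR.1 hR1).1 (hY' R' hR'.1 hR2).1
    have d2 : CutN (A'.filter (fun R => U.a2 < R.b2)) (A'.filter (fun R => U.a2 < R.b2)).card := by
      refine CutN.leaf _ ?_
      have hone : ∀ R ∈ A'.filter (fun R => U.a2 < R.b2), R = U := by
        intro R hR
        rw [Finset.mem_filter] at hR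
        by_contra hne
        linarith [(hY' R hR.1 hne).2, hR.2]
      rw [Finset.card_le_one]
      intro x hx y hy
      rw [hone x hx, hone y hy]
    have d3 := CutN.horiz A' U.a2 _ _ d1 d2
    rw [card_horiz] at d3
    have h0 : (A'.filter (fun R => R.a2 < U.a2 ∧ U.a2 < R.b2)).card = 0 := by
      rw [Finset.card_eq_zero, Finset.filter_eq_empty_iff]
      rintro R hR ⟨h1, h2⟩
      by_cases hne : R = U
      · rw [hne] at h1
        exact lt_irrefl _ h1
      · linarith [(hY' R hR hne).2]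
    rw [h0] at d3
    exact d3
  have c3 := CutN.horiz A U.b2 _ _ c1 c2
  rw [card_horiz] at c3
  have h0 : (A.filter (fun R => R.a2 < U.b2 ∧ U.b2 < R.b2)).card = 0 := by
    rw [Finset.card_eq_zero, Finset.filter_eq_empty_iff]
    rintro R hR ⟨h1, h2⟩
    by_cases hne : R = U
    · rw [hne] at h2
      exact lt_irrefl _ h2
    · rcases hY R hR hne with h3 | h3
      · linarith [h3.2]
      · linarith [h3.2]
  rw [h0] at c3
  exact c3

/-- a vertical line which crosses no middle rectangle crosses at most two rectangles -/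
theorem cross_two {A : Finset Rect} (h : Strip y0 y1 y2 A) (c : ℝ)
    (hU : ∀ R ∈ A, isU y0 y1 y2 R → ¬ (R.a1 < c ∧ c < R.b1)) :
    (A.filter (fun R => R.a1 < c ∧ c < R.b1)).card ≤ 2 := by
  classical
  have h1 : A.filter (fun R => R.a1 < c ∧ c < R.b1) ⊆
      (A.filter (fun R => (R.a1 < c ∧ c < R.b1) ∧ isB y0 y1 R)) ∪
      (A.filter (fun R => (R.a1 < c ∧ c < R.b1) ∧ isT y1 y2 R)) := by
    intro R hR
    rw [Finset.mem_filter] at hR
    rw [Finset.mem_union, Finset.mem_filter, Finset.mem_filter]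
    rcases h.typ R hR.1 with h2 | h2 | h2
    · exact Or.inl ⟨hR.1, hR.2, h2⟩
    · exact absurd hR.2 (hU R hR.1 h2)
    · exact Or.inr ⟨hR.1, hR.2, h2⟩
  have h2 : (A.filter (fun R => (R.a1 < c ∧ c < R.b1) ∧ isB y0 y1 R)).card ≤ 1 := by
    rw [Finset.card_le_one]
    intro x hx y hy
    rw [Finset.mem_filter] at hx hy
    by_contra hne
    rcases sameB h hx.1 hy.1 hne hx.2.2 hy.2.2 with h3 | h3
    · linarith [hx.2.1.2, hy.2.1.1]
    · linarith [hy.2.1.2, hx.2.1.1]
  have h3 : (A.filter (fun R => (R.a1 < c ∧ c < R.b1) ∧ isT y1 y2 R)).card ≤ 1 := by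
    rw [Finset.card_le_one]
    intro x hx y hy
    rw [Finset.mem_filter] at hx hy
    by_contra hne
    rcases sameT h hx.1 hy.1 hne hx.2.2 hy.2.2 with h3 | h3
    · linarith [hx.2.1.2, hy.2.1.1]
    · linarith [hy.2.1.2, hx.2.1.1]
  have h4 := (Finset.card_le_card h1).trans (Finset.card_union_le _ _)
  omega

/-- a vertical line through a vertical side of a lower or upper rectangle, which crosses no middle
rectangle, crosses at most one rectangle -/
theorem cross_one {A : Finset Rect} (h : Strip y0 y1 y2 A) (c : ℝ)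
    (hU : ∀ R ∈ A, isU y0 y1 y2 R → ¬ (R.a1 < c ∧ c < R.b1)) {Q : Rect} (hQ : Q ∈ A)
    (hQU : ¬ isU y0 y1 y2 Q) (hQ1 : Q.a1 ≤ c) (hQ2 : c ≤ Q.b1) (hQ3 : ¬ (Q.a1 < c ∧ c < Q.b1)) :
    (A.filter (fun R => R.a1 < c ∧ c < R.b1)).card ≤ 1 := by
  have hne : ∀ R ∈ A, (R.a1 < c ∧ c < R.b1) → R ≠ Q := by
    rintro R hR h1 rfl
    exact hQ3 h1
  have hno : ∀ R, R.a1 < c ∧ c < R.b1 → ¬ XD R Q := by
    rintro R ⟨h1, h2⟩ (h3 | h3)
    · linarith
    · linarith
  rcases h.typ Q hQ with hq | hq | hq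
  · -- Q is lower: all crossed rectangles are upper
    have hT : ∀ R ∈ A, (R.a1 < c ∧ c < R.b1) → isT y1 y2 R := by
      intro R hR h1
      rcases h.typ R hR with h2 | h2 | h2
      · exact absurd (sameB h hR hQ (hne R hR h1) h2 hq) (hno R h1)
      · exact absurd h1 (hU R hR h2)
      · exact h2
    rw [Finset.card_le_one]
    intro x hx y hy
    rw [Finset.mem_filter] at hx hy
    by_contra hxy
    rcases sameT h hx.1 hy.1 hxy (hT x hx.1 hx.2) (hT y hy.1 hy.2) with h3 | h3
    · linarith [hx.2.2, hy.2.1]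
    · linarith [hy.2.2, hx.2.1]
  · exact absurd hq hQU
  · have hB : ∀ R ∈ A, (R.a1 < c ∧ c < R.b1) → isB y0 y1 R := by
      intro R hR h1
      rcases h.typ R hR with h2 | h2 | h2
      · exact h2
      · exact absurd h1 (hU R hR h2)
      · exact absurd (sameT h hR hQ (hne R hR h1) h2 hq) (hno R h1)
    rw [Finset.card_le_one]
    intro x hx y hy
    rw [Finset.mem_filter] at hx hy
    by_contra hxy
    rcases sameB h hx.1 hy.1 hxy (hB x hx.1 hx.2) (hB y hy.1 hy.2) with h3 | h3
    · linarith [hx.2.2, hy.2.1]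
    · linarith [hy.2.2, hx.2.1]

/-- the sweep: at most two crossings for every middle rectangle, one less if nothing lies to the
left of the first middle rectangle -/
theorem sweep : ∀ (m : ℕ),
    (∀ A : Finset Rect, Strip y0 y1 y2 A → (Us y0 y1 y2 A).card ≤ m →
      CutN A (A.card + 2 * m)) ∧
    (∀ A : Finset Rect, Strip y0 y1 y2 A → (Us y0 y1 y2 A).card ≤ m →
      ∀ U ∈ A, isU y0 y1 y2 U → (∀ R ∈ A, U.a1 < R.b1) →
      ∃ k, CutN A k ∧ k + 1 ≤ A.card + 2 * m) := by
  intro m
  induction m with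
  | zero =>
    constructor
    · intro A h hc
      refine noU h fun R hR hRU => ?_
      have h1 : R ∈ Us y0 y1 y2 A := mem_Us.2 ⟨hR, hRU⟩
      have h2 := Finset.card_pos.2 ⟨R, h1⟩
      omega
    · intro A h hc U hU hUU _
      exfalso
      have h1 : U ∈ Us y0 y1 y2 A := mem_Us.2 ⟨hU, hUU⟩
      have h2 := Finset.card_pos.2 ⟨U, h1⟩
      omega
  | succ m ih =>
    obtain ⟨ihF, ihG⟩ := ih
    have hG : ∀ A : Finset Rect, Strip y0 y1 y2 A → (Us y0 y1 y2 A).card ≤ m + 1 →
        ∀ U ∈ A, isU y0 y1 y2 U → (∀ R ∈ A, U.a1 < R.b1) →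
        ∃ k, CutN A k ∧ k + 1 ≤ A.card + 2 * (m + 1) := by
      intro A h hc U hU hUU hgood
      by_cases hFr : (A.filter (fun R => U.b1 ≤ R.a1)).Nonempty
      swap
      · rw [Finset.not_nonempty_iff_eq_empty, Finset.filter_eq_empty_iff] at hFr
        refine ⟨A.card, oneU h hU hUU ?_, by omega⟩
        rintro R hR _ (h1 | h1)
        · linarith [hgood R hR]
        · exact hFr hR h1.le
      obtain ⟨Q, hQ, hmin⟩ := Finset.exists_min_image _ (fun R => R.a1) hFr
      rw [Finset.mem_filter] at hQ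
      have hmin' : ∀ R ∈ A, U.b1 ≤ R.a1 → Q.a1 ≤ R.a1 := fun R hR h1 =>
        hmin R (Finset.mem_filter.2 ⟨hR, h1⟩)
      have hQl := Q.lt1
      have hUl := U.lt1
      -- the left part
      have cl : CutN (A.filter (fun R => R.a1 < Q.a1)) (A.filter (fun R => R.a1 < Q.a1)).card := by
        refine oneU (U := U) (h.sub (Finset.filter_subset _ _)) ?_ hUU ?_
        · exact Finset.mem_filter.2 ⟨hU, by linarith [hQ.2]⟩
        · rintro R hR _ (h1 | h1)
          · linarith [hgood R (Finset.mem_filter.1 hR).1]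
          · have h2 := (Finset.mem_filter.1 hR)
            have h3 := hmin' R h2.1 h1.le
            linarith [h2.2]
      -- the middle rectangles of the right part
      have hsub : Us y0 y1 y2 (A.filter (fun R => Q.a1 < R.b1)) ⊂ Us y0 y1 y2 A := by
        rw [Finset.ssubset_iff_of_subset]
        · refine ⟨U, mem_Us.2 ⟨hU, hUU⟩, ?_⟩
          intro h1
          have h2 := (Finset.mem_filter.1 (mem_Us.1 h1).1).2
          linarith [hQ.2]
        · intro R hR
          have h1 := mem_Us.1 hR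
          exact mem_Us.2 ⟨(Finset.mem_filter.1 h1.1).1, h1.2⟩
      have hcr := Finset.card_lt_card hsub
      have hcU : ∀ R ∈ A, isU y0 y1 y2 R → ¬ (R.a1 < Q.a1 ∧ Q.a1 < R.b1) := by
        rintro R hR hRU ⟨h1, h2⟩
        by_cases hne : R = U
        · rw [hne] at h2
          linarith [hQ.2]
        · rcases sameU h hR hU hne hRU hUU with h3 | h3
          · linarith [hgood R hR]
          · linarith [hmin' R hR h3.le]
      have hcv := card_vert A Q.a1
      by_cases hQU : isU y0 y1 y2 Q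
      · obtain ⟨k, hk, hk1⟩ := ihG (A.filter (fun R => Q.a1 < R.b1))
          (h.sub (Finset.filter_subset _ _)) (by omega) Q
          (Finset.mem_filter.2 ⟨hQ.1, hQl⟩) hQU
          (fun R hR => (Finset.mem_filter.1 hR).2)
        have h2 := cross_two h Q.a1 hcU
        exact ⟨_, CutN.vert A Q.a1 _ _ cl hk, by omega⟩
      · have hk := ihF (A.filter (fun R => Q.a1 < R.b1))
          (h.sub (Finset.filter_subset _ _)) (by omega)
        have h2 := cross_one h Q.a1 hcU hQ.1 hQU le_rfl hQl.le (fun h3 => lt_irrefl _ h3.1)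
        exact ⟨_, CutN.vert A Q.a1 _ _ cl hk, by omega⟩
    refine ⟨?_, hG⟩
    intro A h hc
    by_cases hne : (Us y0 y1 y2 A).Nonempty
    swap
    · have h1 : CutN A A.card := by
        refine noU h fun R hR hRU => ?_
        exact hne ⟨R, mem_Us.2 ⟨hR, hRU⟩⟩
      exact CutN.weak _ _ _ h1 (by omega)
    obtain ⟨U, hU', hminU⟩ := Finset.exists_min_image _ (fun R => R.a1) hne
    obtain ⟨hU, hUU⟩ := mem_Us.1 hU'
    have hminU' : ∀ R ∈ A, isU y0 y1 y2 R → U.a1 ≤ R.a1 := fun R hR h1 =>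
      hminU R (mem_Us.2 ⟨hR, h1⟩)
    by_cases hFl : (A.filter (fun R => R.b1 ≤ U.a1)).Nonempty
    swap
    · rw [Finset.not_nonempty_iff_eq_empty, Finset.filter_eq_empty_iff] at hFl
      obtain ⟨k, hk, hk1⟩ := hG A h hc U hU hUU (fun R hR => not_le.1 (hFl hR))
      exact CutN.weak _ _ _ hk (by omega)
    obtain ⟨P, hP, hmax⟩ := Finset.exists_max_image _ (fun R => R.b1) hFl
    rw [Finset.mem_filter] at hP
    have hmax' : ∀ R ∈ A, R.b1 ≤ U.a1 → R.b1 ≤ P.b1 := fun R hR h1 =>
      hmax R (Finset.mem_filter.2 ⟨hR, h1⟩)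
    have hPl := P.lt1
    have hPU : ¬ isU y0 y1 y2 P := fun h1 => by linarith [hminU' P hP.1 h1, hP.2]
    have cl : CutN (A.filter (fun R => R.a1 < P.b1)) (A.filter (fun R => R.a1 < P.b1)).card := by
      refine noU (h.sub (Finset.filter_subset _ _)) fun R hR hRU => ?_
      rw [Finset.mem_filter] at hR
      linarith [hminU' R hR.1 hRU, hP.2, hR.2]
    have hUl := U.lt1
    have hsub : Us y0 y1 y2 (A.filter (fun R => P.b1 < R.b1)) ⊆ Us y0 y1 y2 A := by
      intro R hR
      have h1 := mem_Us.1 hR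
      exact mem_Us.2 ⟨(Finset.mem_filter.1 h1.1).1, h1.2⟩
    have hcr := Finset.card_le_card hsub
    obtain ⟨k, hk, hk1⟩ := hG (A.filter (fun R => P.b1 < R.b1))
      (h.sub (Finset.filter_subset _ _)) (by omega) U
      (Finset.mem_filter.2 ⟨hU, by linarith [hP.2]⟩) hUU (by
        intro R hR
        rw [Finset.mem_filter] at hR
        by_contra h1
        linarith [hmax' R hR.1 (not_lt.1 h1), hR.2])
    have hcU : ∀ R ∈ A, isU y0 y1 y2 R → ¬ (R.a1 < P.b1 ∧ P.b1 < R.b1) := by
      rintro R hR hRU ⟨h1, h2⟩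
      linarith [hminU' R hR hRU, hP.2]
    have h2 := cross_one h P.b1 hcU hP.1 hPU hPl.le le_rfl (fun h3 => lt_irrefl _ h3.2)
    have hcv := card_vert A P.b1
    exact CutN.weak _ _ _ (CutN.vert A P.b1 _ _ cl hk) (by omega)

end Pool.Agent.Helper57.BSP
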